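import Pool.Agent.helper56.CT.SpecB

/-! # cd:A3a (helper46): spanning trees meeting the star in at most one edge -/

namespace CT
open Finset
set_option linter.unusedSectionVars false

theorem A3a_add (x : ZMod 2) : x + x = 0 := CharTwo.add_self_eq_zero x

section
variable {E N : Type} [Fintype E] [Fintype N] [DecidableEq E] [DecidableEq N]

/-- potentials: the sum along an old edge -/
theorem A3a_inl (inc : E → N → ZMod 2) (a : Fin 3 → N) (e : E) (φ : Option N → ZMod 2) :
    ∑ n, incF inc a (Sum.inl e) n * φ n = ∑ n, inc e n * φ (some n) := by
  rw [Fintype.sum_option]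
  simp [incF]

theorem A3a_inr (inc : E → N → ZMod 2) (a : Fin 3 → N) (i : Fin 3) (φ : Option N → ZMod 2) :
    ∑ n, incF inc a (Sum.inr i) n * φ n = φ none + φ (some (a i)) := by
  rw [Fintype.sum_option]
  simp [incF]

/-- currents -/
theorem A3a_some (inc : E → N → ZMod 2) (a : Fin 3 → N) (n : N) (y : E ⊕ Fin 3 → ZMod 2)
    (hy : ∀ j, y (Sum.inr j) = 0) :
    ∑ e, incF inc a e (some n) * y e = ∑ e, inc e n * y (Sum.inl e) := by
  rw [Fintype.sum_sum_type]
  simp [incF, hy]

theorem A3a_none (inc : E → N → ZMod 2) (a : Fin 3 → N) (y : E ⊕ Fin 3 → ZMod 2) :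
    ∑ e, incF inc a e none * y e = ∑ j, y (Sum.inr j) := by
  rw [Fintype.sum_sum_type]
  simp [incF]

theorem A3a_two (inc : E → N → ZMod 2) (h : TwoEnds inc) (e : E) : ∑ n, inc e n = 0 := by
  obtain ⟨m, n, hmn, h1⟩ := h e
  simp only [h1]
  rw [← Finset.sum_filter, Finset.sum_const]
  have h2 : (univ.filter fun k : N => k = m ∨ k = n) = {m, n} := by
    ext k; simp
  rw [h2, Finset.card_pair hmn]
  rfl

end

theorem A3a : A3a_stmt := by
  intro E N _ _ _ _ inc a T i hT2
  refine ⟨?_, ?_, ?_⟩
  · intro h
    have h1 := h.2 (fun n => if n = none then 1 else 0) (by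
      intro b hb
      obtain ⟨e, -, rfl⟩ := Finset.mem_map.1 hb
      show ∑ n, incF inc a (Sum.inl e) n * _ = 0
      rw [A3a_inl]
      simp) none (some (a 0))
    simp at h1
  · constructor
    · intro h
      constructor
      · intro y hy1 hy2
        have h1 := h.1 (Sum.elim y (fun _ => 0)) (by
          rintro (e | j) hb
          · refine hy1 e fun he => hb ?_
            exact Finset.mem_union_left _ (Finset.mem_map.2 ⟨e, he, rfl⟩)
          · rfl) (by
          rintro (_ | n)
          · rw [A3a_none]; simp
          · rw [A3a_some _ _ _ _ (fun _ => rfl)]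
            exact hy2 n)
        funext e
        exact congrFun h1 (Sum.inl e)
      · intro φ hφ m n
        have h1 := h.2 (fun n => n.elim (φ (a i)) φ) (by
          intro b hb
          rcases Finset.mem_union.1 hb with hb | hb
          · obtain ⟨e, he, rfl⟩ := Finset.mem_map.1 hb
            show ∑ n, incF inc a (Sum.inl e) n * _ = 0
            rw [A3a_inl]
            exact hφ e he
          · rw [Finset.mem_singleton.1 hb, A3a_inr]
            exact A3a_add _) (some m) (some n)
        exact h1
    · intro h
      constructor
      · intro y hy1 hy2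
        have h0 : ∀ j, j ≠ i → y (Sum.inr j) = 0 := by
          intro j hj
          refine hy1 _ fun hb => ?_
          rcases Finset.mem_union.1 hb with hb | hb
          · obtain ⟨e, -, he⟩ := Finset.mem_map.1 hb
            exact absurd he (by simp)
          · exact hj (Sum.inr.inj (Finset.mem_singleton.1 hb))
        have h1 : y (Sum.inr i) = 0 := by
          have h2 := hy2 none
          rw [A3a_none, Finset.sum_eq_single i (fun j _ hj => h0 j hj) (by simp)] at h2
          exact h2
        have h2 : ∀ j, y (Sum.inr j) = 0 := by
          intro j
          by_cases hj : j = i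
          · rw [hj]; exact h1
          · exact h0 j hj
        have h3 := h.1 (fun e => y (Sum.inl e)) (by
          intro e he
          refine hy1 _ fun hb => ?_
          rcases Finset.mem_union.1 hb with hb | hb
          · obtain ⟨e', he', h4⟩ := Finset.mem_map.1 hb
            have h5 : e' = e := Sum.inl.inj h4
            exact he (h5 ▸ he')
          · exact absurd (Finset.mem_singleton.1 hb) (by simp)) (by
          intro n
          have h4 := hy2 (some n)
          rw [A3a_some _ _ _ _ h2] at h4
          exact h4)
        funext b
        rcases b with e | j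
        · exact congrFun h3 e
        · exact h2 j
      · intro φ hφ
        have h1 := h.2 (fun n => φ (some n)) (by
          intro e he
          have h2 := hφ (Sum.inl e) (Finset.mem_union_left _ (Finset.mem_map.2 ⟨e, he, rfl⟩))
          rw [A3a_inl] at h2
          exact h2)
        have h3 : φ none = φ (some (a i)) := by
          have h4 := hφ (Sum.inr i) (Finset.mem_union_right _ (Finset.mem_singleton_self _))
          rw [A3a_inr] at h4
          exact CharTwo.add_eq_zero.1 h4
        have h5 : ∀ n, φ n = φ (some (a i)) := by
          rintro (_ | n)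
          · exact h3
          · exact h1 n (a i)
        intro m n
        rw [h5 m, h5 n]
  · intro n0
    have hsum : ∀ y : E → ZMod 2, ∑ n, ∑ b, inc b n * y b = 0 := by
      intro y
      rw [Finset.sum_comm]
      refine Finset.sum_eq_zero fun b _ => ?_
      rw [← Finset.sum_mul, A3a_two inc hT2 b, zero_mul]
    constructor
    · intro h
      constructor
      · intro y hy1 hy2
        have h1 : ∀ n, n ≠ n0 → ∑ b, inc b n * y b = 0 := fun n hn => hy2 n (by simp [g1, hn])
        refine h.1 y hy1 fun n => ?_
        by_cases hn : n = n0
        · have h2 := hsum y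
          rw [Finset.sum_eq_single n0 (fun n _ hn => h1 n hn) (by simp)] at h2
          rw [hn]
          exact h2
        · exact h1 n hn
      · intro φ hφ h0
        have h1 : φ n0 = 0 := h0 n0 n0 (by simp [g1])
        funext n
        rw [h.2 φ hφ n n0, h1]
        rfl
    · intro h
      constructor
      · intro y hy1 hy2
        exact h.1 y hy1 fun n _ => hy2 n
      · intro φ hφ
        have h1 := h.2 (fun n => φ n + φ n0) (by
          intro b hb
          have h2 : ∑ n, inc b n * (φ n + φ n0) = ∑ n, inc b n * φ n + (∑ n, inc b n) * φ n0 := by
            rw [Finset.sum_mul, ← Finset.sum_add_distrib]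
            exact Finset.sum_congr rfl fun n _ => by ring
          rw [h2, hφ b hb, A3a_two inc hT2 b, zero_mul, add_zero]) (by
          intro n m hnm
          have h3 : m = n0 := by
            unfold g1 at hnm
            split_ifs at hnm with h4
            exact (Option.some.inj hnm).symm
          rw [h3]
          exact A3a_add _)
        have h5 : ∀ n, φ n = φ n0 := fun n => CharTwo.add_eq_zero.1 (congrFun h1 n)
        intro m n
        rw [h5 m, h5 n]

end CT
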