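import Pool.Agent.helper56.CT.SpecA

/-! # cd:B0 (helper46): number of components -/

namespace CT
open Finset

theorem B0_half {V : Type} [Fintype V] [DecidableEq V] (N : Finset (V → Bool)) (a b : V)
    (hN : ∀ φ ∈ N, ∀ ψ ∈ N, (fun v => xor (φ v) (ψ v)) ∈ N) :
    N.card ≤ 2 * (N.filter fun φ => φ a = φ b).card := by
  have h1 := Finset.card_filter_add_card_filter_not (s := N) (fun φ : V → Bool => φ a = φ b)
  have h2 : (N.filter fun φ => ¬ φ a = φ b).card ≤ (N.filter fun φ => φ a = φ b).card := by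
    rcases Finset.eq_empty_or_nonempty (N.filter fun φ => ¬ φ a = φ b) with h | ⟨φ0, h0⟩
    · rw [h]; simp
    · obtain ⟨h3, h4⟩ := Finset.mem_filter.1 h0
      refine Finset.card_le_card_of_injOn (fun φ v => xor (φ v) (φ0 v)) ?_ ?_
      · intro φ hφ
        obtain ⟨h5, h6⟩ := Finset.mem_filter.1 (Finset.mem_coe.1 hφ)
        refine Finset.mem_coe.2 (Finset.mem_filter.2 ⟨hN φ h5 φ0 h3, ?_⟩)
        show xor (φ a) (φ0 a) = xor (φ b) (φ0 b)
        revert h4 h6
        cases φ a <;> cases φ b <;> cases φ0 a <;> cases φ0 b <;> simp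
      · intro φ _ ψ _ h
        funext v
        have h7 : xor (φ v) (φ0 v) = xor (ψ v) (φ0 v) := congrFun h v
        revert h7
        cases φ v <;> cases ψ v <;> cases φ0 v <;> simp
  omega

theorem B0_main {V : Type} [Fintype V] [DecidableEq V] (S : Finset V) (e : V × Fin 4 → V × Fin 4)
    (he : ∀ d, e (e d) = d) : ∀ (n : ℕ) (T : Finset (V × Fin 4)) (k : ℕ), T.card ≤ n →
    (∀ d ∈ T, e d ∈ T ∧ e d ≠ d ∧ d.1 ∈ S) → T.card + 2 * k ≤ 2 * S.card →
    2 ^ k ≤ ((univ : Finset (V → Bool)).filter fun φ =>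
      (∀ v, v ∉ S → φ v = false) ∧ ∀ d ∈ T, φ d.1 = φ (e d).1).card := by
  intro n
  induction n with
  | zero =>
    intro T k hT _ hk
    have hT' : T = ∅ := Finset.card_eq_zero.1 (by omega)
    subst hT'
    have h1 : k ≤ S.card := by simpa using hk
    refine le_trans (Nat.pow_le_pow_right (by norm_num) h1) ?_
    rw [← Finset.card_powerset]
    refine Finset.card_le_card_of_injOn (fun A v => decide (v ∈ A)) ?_ ?_
    · intro A hA
      have hA' := Finset.mem_powerset.1 (Finset.mem_coe.1 hA)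
      refine Finset.mem_coe.2 (Finset.mem_filter.2 ⟨Finset.mem_univ _, fun v hv => ?_, ?_⟩)
      · exact decide_eq_false fun h => hv (hA' h)
      · intro d hd; simp at hd
    · intro A _ B _ h
      ext v
      have h2 : decide (v ∈ A) = decide (v ∈ B) := congrFun h v
      simpa using h2
  | succ n ih =>
    intro T k hT hT2 hk
    rcases Finset.eq_empty_or_nonempty T with h0 | ⟨d, hd⟩
    · exact ih T k (by rw [h0]; simp) hT2 hk
    · obtain ⟨h1, h2, h3⟩ := hT2 d hd
      obtain ⟨T', hT'⟩ : ∃ T', T' = (T.erase d).erase (e d) := ⟨_, rfl⟩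
      have hcard : T'.card + 2 = T.card := by
        rw [hT', Finset.card_erase_of_mem (Finset.mem_erase.2 ⟨h2, h1⟩),
          Finset.card_erase_of_mem hd]
        have h4 : 1 < T.card := Finset.one_lt_card.2 ⟨d, hd, e d, h1, h2.symm⟩
        omega
      have hT3 : ∀ d' ∈ T', e d' ∈ T' ∧ e d' ≠ d' ∧ d'.1 ∈ S := by
        intro d' hd'
        rw [hT', Finset.mem_erase, Finset.mem_erase] at hd'
        obtain ⟨h5, h6, h7⟩ := hd'
        obtain ⟨h8, h9, h10⟩ := hT2 d' h7
        refine ⟨?_, h9, h10⟩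
        rw [hT', Finset.mem_erase, Finset.mem_erase]
        refine ⟨fun h => h6 ((inj_of he).1 h), fun h => h5 ?_, h8⟩
        rw [← h, he]
      have h11 := ih T' (k + 1) (by omega) hT3 (by omega)
      have h12 := B0_half ((univ : Finset (V → Bool)).filter fun φ =>
        (∀ v, v ∉ S → φ v = false) ∧ ∀ d ∈ T', φ d.1 = φ (e d).1) d.1 (e d).1 (by
          intro φ hφ ψ hψ
          obtain ⟨-, a1, a2⟩ := Finset.mem_filter.1 hφ
          obtain ⟨-, b1, b2⟩ := Finset.mem_filter.1 hψ
          refine Finset.mem_filter.2 ⟨Finset.mem_univ _, fun v hv => ?_, fun d' hd' => ?_⟩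
          · show xor (φ v) (ψ v) = false
            rw [a1 v hv, b1 v hv]
            rfl
          · show xor (φ d'.1) (ψ d'.1) = xor (φ (e d').1) (ψ (e d').1)
            rw [a2 d' hd', b2 d' hd'])
      have h13 : (((univ : Finset (V → Bool)).filter fun φ =>
          (∀ v, v ∉ S → φ v = false) ∧ ∀ d ∈ T', φ d.1 = φ (e d).1).filter
          fun φ => φ d.1 = φ (e d).1) ⊆ ((univ : Finset (V → Bool)).filter fun φ =>
          (∀ v, v ∉ S → φ v = false) ∧ ∀ d ∈ T, φ d.1 = φ (e d).1) := by
        intro φ hφ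
        obtain ⟨a0, a3⟩ := Finset.mem_filter.1 hφ
        obtain ⟨-, a1, a2⟩ := Finset.mem_filter.1 a0
        refine Finset.mem_filter.2 ⟨Finset.mem_univ _, a1, fun d' hd' => ?_⟩
        by_cases e1 : d' = d
        · rw [e1]; exact a3
        by_cases e2 : d' = e d
        · rw [e2, he]; exact a3.symm
        · refine a2 d' ?_
          rw [hT', Finset.mem_erase, Finset.mem_erase]
          exact ⟨e2, e1, hd'⟩
      have h14 := Finset.card_le_card h13
      have h15 : 2 ^ (k + 1) = 2 * 2 ^ k := by ring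
      omega

theorem B0 : B0_stmt := by
  intro V _ _ S e T k he hT hk
  exact B0_main S e he T.card T k le_rfl hT hk

end CT
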