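import Pool.Agent.helper56.CT.SpecA

/-! # cd:B2 (helper46): no spanning tree pair if there is a loop -/

namespace CT
open Finset

theorem B2_core (hB : B0_stmt) {V : Type} [Fintype V] [DecidableEq V] (S : Finset V)
    (e : V × Fin 4 → V × Fin 4) (u : V) (i j : Fin 4) (he : ∀ d, e (e d) = d)
    (hA : ∀ d, d.1 ∈ S → e d ≠ d) (hu : u ∈ S) (hij : i ≠ j) (heu : e (u, i) = (u, j))
    (T : Finset (V × Fin 4)) (hT1 : ∀ d ∈ T, e d ∈ T) (hT2 : ∀ d ∈ T, d.1 ∈ S)
    (hui : (u, i) ∈ T) : ¬ Tr S e T := by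
  rintro ⟨hc, hC⟩
  have huj : (u, j) ∈ T := heu ▸ hT1 _ hui
  have hne : (u, i) ≠ (u, j) := fun h => hij (Prod.mk.inj h).2
  obtain ⟨T', hT'⟩ : ∃ T', T' = (T.erase (u, i)).erase (u, j) := ⟨_, rfl⟩
  have hcard : T'.card + 2 = T.card := by
    rw [hT', Finset.card_erase_of_mem (Finset.mem_erase.2 ⟨hne.symm, huj⟩),
      Finset.card_erase_of_mem hui]
    have h4 : 1 < T.card := Finset.one_lt_card.2 ⟨_, hui, _, huj, hne⟩
    omega
  have heu' : e (u, j) = (u, i) := by rw [← heu, he]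
  have hT3 : ∀ d ∈ T', e d ∈ T' ∧ e d ≠ d ∧ d.1 ∈ S := by
    intro d hd
    rw [hT', Finset.mem_erase, Finset.mem_erase] at hd
    obtain ⟨h5, h6, h7⟩ := hd
    refine ⟨?_, hA d (hT2 d h7), hT2 d h7⟩
    rw [hT', Finset.mem_erase, Finset.mem_erase]
    refine ⟨fun h => h6 ?_, fun h => h5 ?_, hT1 d h7⟩
    · rw [← he d, h, heu']
    · rw [← he d, h, heu]
  have h1 := hB V S e T' 2 he hT3 (by omega)
  have h2 : ((univ : Finset (V → Bool)).filter fun φ =>
      (∀ v, v ∉ S → φ v = false) ∧ ∀ d ∈ T', φ d.1 = φ (e d).1).card ≤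
      (univ : Finset Bool).card := by
    refine Finset.card_le_card_of_injOn (fun φ => φ u) (fun _ _ => Finset.mem_coe.2 (Finset.mem_univ _)) ?_
    intro φ hφ ψ hψ h
    obtain ⟨-, a1, a2⟩ := Finset.mem_filter.1 (Finset.mem_coe.1 hφ)
    obtain ⟨-, b1, b2⟩ := Finset.mem_filter.1 (Finset.mem_coe.1 hψ)
    have key : ∀ χ : V → Bool, (∀ d ∈ T', χ d.1 = χ (e d).1) → ∀ w ∈ S, χ w = χ u := by
      intro χ hχ w hw
      refine hC χ (fun d hd => ?_) w hw u hu
      by_cases e1 : d = (u, i)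
      · rw [e1, heu]
      by_cases e2 : d = (u, j)
      · rw [e2, heu']
      · refine hχ d ?_
        rw [hT', Finset.mem_erase, Finset.mem_erase]
        exact ⟨e2, e1, hd⟩
    funext v
    by_cases hv : v ∈ S
    · rw [key φ a2 v hv, key ψ b2 v hv]
      exact h
    · rw [a1 v hv, b1 v hv]
  have h3 : (univ : Finset Bool).card = 2 := rfl
  rw [h3] at h2
  omega

theorem B2_filter {α : Type} (s : Finset α) (p : α → Prop) (inst : DecidablePred p)
    (h : ∀ x ∈ s, ¬ p x) : (@Finset.filter α p inst s).card = 0 := by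
  rw [Finset.card_eq_zero, Finset.filter_eq_empty_iff]
  exact fun _ hx => h _ hx

theorem B2 (hB : B0_stmt) : B2_stmt := by
  intro V _ _ S e u i j he hA hu hS hij heu
  unfold TP
  refine B2_filter _ _ _ ?_
  rintro T hT ⟨hT1, hT2, hT3⟩
  have hsub := Finset.mem_powerset.1 hT
  have hDU : ∀ d ∈ DU S e, d.1 ∈ S := by
    intro d hd
    unfold DU dts at hd
    rw [Finset.mem_filter, Finset.mem_product] at hd
    exact hd.1.1
  have hDU2 : ∀ d ∈ DU S e, e d ∈ DU S e := by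
    intro d hd
    unfold DU dts at hd ⊢
    rw [Finset.mem_filter, Finset.mem_product] at hd ⊢
    exact ⟨⟨hd.2, Finset.mem_univ _⟩, by rw [he]; exact hd.1.1⟩
  have huD : (u, i) ∈ DU S e := by
    unfold DU dts
    rw [Finset.mem_filter, Finset.mem_product]
    exact ⟨⟨hu, Finset.mem_univ _⟩, by rw [heu]; exact hu⟩
  by_cases h : (u, i) ∈ T
  · exact B2_core hB S e u i j he hA hu hij heu T hT1 (fun d hd => hDU d (hsub hd)) h hT2
  · refine B2_core hB S e u i j he hA hu hij heu (DU S e \ T) ?_ ?_ ?_ hT3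
    · intro d hd
      rw [Finset.mem_sdiff] at hd ⊢
      refine ⟨hDU2 d hd.1, fun h' => hd.2 ?_⟩
      have := hT1 _ h'
      rwa [he] at this
    · intro d hd
      exact hDU d (Finset.mem_sdiff.1 hd).1
    · exact Finset.mem_sdiff.2 ⟨huD, h⟩

end CT
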