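import Pool.Agent.helper56.CT.SpecA

/-! # cd:D8 (helper46): invariance under renaming the darts at each vertex -/

namespace CT
open Finset

section
variable {D : Type*} [DecidableEq D]

theorem D8_join (Φ : D ≃ D) (e : D → D) (x y : D) :
    join (fun z => Φ (e (Φ.symm z))) (Φ x) (Φ y) = fun z => Φ (join e x y (Φ.symm z)) := by
  funext z
  obtain ⟨z, rfl⟩ := Φ.surjective z
  unfold join
  simp only [Equiv.symm_apply_apply, EmbeddingLike.apply_eq_iff_eq]
  split_ifs <;> rfl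

theorem D8_lp (Φ : D ≃ D) (e : D → D) (x y : D) :
    lp (fun z => Φ (e (Φ.symm z))) (Φ x) (Φ y) = lp e x y := by
  unfold lp
  simp only [Equiv.symm_apply_apply, EmbeddingLike.apply_eq_iff_eq]

theorem D8_ne (e : D → D) (he : ∀ d, e (e d) = d) {x y z : D} (hxy : x ≠ y) (hx : z ≠ x)
    (hy : z ≠ y) (hz : e z ≠ z) : join e x y z ≠ z := by
  unfold join
  rw [if_neg (by tauto)]
  split_ifs with h1 h2
  · intro h
    apply hxy
    rw [← h1, ← h, he]
  · intro h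
    apply hxy
    rw [← h2, ← h, he]
  · exact hz

end

/-- the pairing containing `{a, b}` -/
def D8_ix (a b : Fin 4) : Fin 3 :=
  if (a = 0 ∧ b = 1) ∨ (a = 1 ∧ b = 0) ∨ (a = 2 ∧ b = 3) ∨ (a = 3 ∧ b = 2) then 0
  else if (a = 0 ∧ b = 2) ∨ (a = 2 ∧ b = 0) ∨ (a = 1 ∧ b = 3) ∨ (a = 3 ∧ b = 1) then 1
  else 2

theorem D8_dec : ∀ a b c d : Fin 4, a ≠ b → a ≠ c → a ≠ d → b ≠ c → b ≠ d → c ≠ d →
    (a, b, c, d) = pr (D8_ix a b) ∨ (b, a, c, d) = pr (D8_ix a b) ∨ (a, b, d, c) = pr (D8_ix a b) ∨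
    (b, a, d, c) = pr (D8_ix a b) ∨ (c, d, a, b) = pr (D8_ix a b) ∨ (c, d, b, a) = pr (D8_ix a b) ∨
    (d, c, a, b) = pr (D8_ix a b) ∨ (d, c, b, a) = pr (D8_ix a b) := by
  decide

theorem D8_dec2 : ∀ a b c d : Fin 4, a ≠ b → a ≠ c → a ≠ d → b ≠ c → b ≠ d → c ≠ d →
    D8_ix a b ≠ D8_ix a c ∧ D8_ix a b ≠ D8_ix a d ∧ D8_ix a c ≠ D8_ix a d := by
  decide

theorem D8_sum3 (G : Fin 3 → ℤ) : ∀ p q r : Fin 3, p ≠ q → p ≠ r → q ≠ r →
    G p + G q + G r = G 0 + G 1 + G 2 := by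
  intro p q r h1 h2 h3
  have h : ({p, q, r} : Finset (Fin 3)) = univ := by
    revert h1 h2 h3
    revert p q r
    decide
  have h4 : ∑ t ∈ ({p, q, r} : Finset (Fin 3)), G t = G p + G q + G r := by
    rw [Finset.sum_insert (by simp [h1, h2]), Finset.sum_insert (by simp [h3]),
      Finset.sum_singleton]
    ring
  rw [← h4, h, Fin.sum_univ_three]

theorem D8_perm (F : Fin 4 → Fin 4 → Fin 4 → Fin 4 → ℤ) (σ : Equiv.Perm (Fin 4))
    (h1 : ∀ a b c d : Fin 4, a ≠ b → a ≠ c → a ≠ d → b ≠ c → b ≠ d → c ≠ d → F a b c d = F b a c d)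
    (h2 : ∀ a b c d : Fin 4, a ≠ b → a ≠ c → a ≠ d → b ≠ c → b ≠ d → c ≠ d → F a b c d = F c d a b) :
    ∑ t : Fin 3, F (σ (pr t).1) (σ (pr t).2.1) (σ (pr t).2.2.1) (σ (pr t).2.2.2) =
      ∑ t : Fin 3, F (pr t).1 (pr t).2.1 (pr t).2.2.1 (pr t).2.2.2 := by
  have h3 : ∀ a b c d : Fin 4, a ≠ b → a ≠ c → a ≠ d → b ≠ c → b ≠ d → c ≠ d →
      F a b c d = F (pr (D8_ix a b)).1 (pr (D8_ix a b)).2.1 (pr (D8_ix a b)).2.2.1
        (pr (D8_ix a b)).2.2.2 := by
    intro a b c d hab hac had hbc hbd hcd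
    have h2' : F a b c d = F c d a b := h2 a b c d hab hac had hbc hbd hcd
    have h4 : F a b c d = F b a c d := h1 a b c d hab hac had hbc hbd hcd
    have h5 : F c d a b = F d c a b := h1 c d a b hcd hac.symm hbc.symm had.symm hbd.symm hab
    have h6 : F a b d c = F d c a b := h2 a b d c hab had hac hbd hbc hcd.symm
    have h7 : F b a d c = F a b d c := h1 b a d c hab.symm hbd hbc had hac hcd.symm
    have h8 : F c d b a = F b a c d := (h2 b a c d hab.symm hbc hbd hac had hcd).symm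
    have h9 : F d c b a = F b a d c := (h2 b a d c hab.symm hbd hbc had hac hcd.symm).symm
    rcases D8_dec a b c d hab hac had hbc hbd hcd with h | h | h | h | h | h | h | h <;>
      rw [← h] <;> dsimp only
    · exact h4
    · exact h2'.trans (h5.trans h6.symm)
    · exact h2'.trans (h5.trans (h6.symm.trans h7.symm))
    · exact h2'
    · exact h4.trans h8.symm
    · exact h2'.trans h5
    · exact h2'.trans (h5.trans (h6.symm.trans (h7.symm.trans h9.symm)))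
  have hσ : ∀ i j : Fin 4, i ≠ j → σ i ≠ σ j := fun i j h => σ.injective.ne h
  have e0 : pr 0 = (0, 1, 2, 3) := rfl
  have e1 : pr 1 = (0, 2, 1, 3) := rfl
  have e2 : pr 2 = (0, 3, 1, 2) := rfl
  rw [Fin.sum_univ_three, Fin.sum_univ_three, e0, e1, e2]
  dsimp only
  have n01 := hσ 0 1 (by decide)
  have n02 := hσ 0 2 (by decide)
  have n03 := hσ 0 3 (by decide)
  have n12 := hσ 1 2 (by decide)
  have n13 := hσ 1 3 (by decide)
  have n23 := hσ 2 3 (by decide)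
  rw [h3 (σ 0) (σ 1) (σ 2) (σ 3) n01 n02 n03 n12 n13 n23,
    h3 (σ 0) (σ 2) (σ 1) (σ 3) n02 n01 n03 n12.symm n23 n13,
    h3 (σ 0) (σ 3) (σ 1) (σ 2) n03 n01 n02 n13.symm n23.symm n12]
  obtain ⟨m1, m2, m3⟩ := D8_dec2 (σ 0) (σ 1) (σ 2) (σ 3) n01 n02 n03 n12 n13 n23
  have h10 := D8_sum3 (fun t => F (pr t).1 (pr t).2.1 (pr t).2.2.1 (pr t).2.2.2)
    (D8_ix (σ 0) (σ 1)) (D8_ix (σ 0) (σ 2)) (D8_ix (σ 0) (σ 3)) m1 m2 m3
  rw [e0, e1, e2] at h10
  exact h10

/-- renaming -/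
def D8_Phi {V : Type} (π : V → Equiv.Perm (Fin 4)) : V × Fin 4 ≃ V × Fin 4 where
  toFun d := (d.1, π d.1 d.2)
  invFun d := (d.1, (π d.1).symm d.2)
  left_inv d := by simp
  right_inv d := by simp

theorem D8_main {V : Type} [DecidableEq V] (x : ℤ) (π : V → Equiv.Perm (Fin 4)) :
    ∀ (L : List V) (e : V × Fin 4 → V × Fin 4),
    L.Nodup → (∀ d, e (e d) = d) → (∀ u ∈ L, ∀ i, e (u, i) ≠ (u, i)) →
    Z x L (fun d => D8_Phi π (e ((D8_Phi π).symm d))) = Z x L e := by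
  intro L
  induction L with
  | nil => intro e _ _ _; rfl
  | cons u L ih =>
    intro e hN he hA
    obtain ⟨hu, hN'⟩ := List.nodup_cons.1 hN
    have hAu : ∀ i, e (u, i) ≠ (u, i) := hA u (by simp)
    have hne : ∀ i j : Fin 4, i ≠ j → (u, i) ≠ (u, j) := fun i j h h' => h (Prod.mk.inj h').2
    have key : ∀ a b c d : Fin 4, a ≠ b → a ≠ c → a ≠ d → b ≠ c → b ≠ d → c ≠ d →
        (∀ z, join (join e (u, a) (u, b)) (u, c) (u, d)
          (join (join e (u, a) (u, b)) (u, c) (u, d) z) = z) ∧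
        ∀ w ∈ L, ∀ i, join (join e (u, a) (u, b)) (u, c) (u, d) (w, i) ≠ (w, i) := by
      intro a b c d hab hac had hbc hbd hcd
      have h1 := join_invol e he (hne a b hab) (hAu a) (hAu b)
      have h2 : join e (u, a) (u, b) (u, c) ≠ (u, c) :=
        D8_ne e he (hne a b hab) (hne c a hac.symm) (hne c b hbc.symm) (hAu c)
      have h3 : join e (u, a) (u, b) (u, d) ≠ (u, d) :=
        D8_ne e he (hne a b hab) (hne d a had.symm) (hne d b hbd.symm) (hAu d)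
      refine ⟨join_invol _ h1 (hne c d hcd) h2 h3, fun w hw i => ?_⟩
      have hwu : ∀ j, (w, i) ≠ (u, j) := fun j h => hu ((Prod.mk.inj h).1 ▸ hw)
      refine D8_ne _ h1 (hne c d hcd) (hwu c) (hwu d) ?_
      exact D8_ne e he (hne a b hab) (hwu a) (hwu b) (hA w (by simp [hw]) i)
    -- the function of the pairing
    obtain ⟨F, hF⟩ : ∃ F : Fin 4 → Fin 4 → Fin 4 → Fin 4 → ℤ, F = fun a b c d =>
      x ^ (lp e (u, a) (u, b) + lp (join e (u, a) (u, b)) (u, c) (u, d)) *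
        Z x L (join (join e (u, a) (u, b)) (u, c) (u, d)) := ⟨_, rfl⟩
    have hR : Z x (u :: L) e = ∑ t : Fin 3, F (pr t).1 (pr t).2.1 (pr t).2.2.1 (pr t).2.2.2 := by
      rw [hF]; rfl
    have hLs : Z x (u :: L) (fun d => D8_Phi π (e ((D8_Phi π).symm d))) =
        ∑ t : Fin 3, F ((π u).symm (pr t).1) ((π u).symm (pr t).2.1) ((π u).symm (pr t).2.2.1)
          ((π u).symm (pr t).2.2.2) := by
      show ∑ t : Fin 3, x ^ ls (fun d => D8_Phi π (e ((D8_Phi π).symm d))) u t *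
        Z x L (sm (fun d => D8_Phi π (e ((D8_Phi π).symm d))) u t) = _
      refine Finset.sum_congr rfl fun t _ => ?_
      obtain ⟨a, b, c, d, habcd, hab, hac, had, hbc, hbd, hcd⟩ : ∃ a b c d : Fin 4,
          pr t = (a, b, c, d) ∧ a ≠ b ∧ a ≠ c ∧ a ≠ d ∧ b ≠ c ∧ b ≠ d ∧ c ≠ d := by
        revert t; decide
      have hΦ : ∀ i : Fin 4, (u, i) = D8_Phi π (u, (π u).symm i) := fun i => by
        simp [D8_Phi]
      unfold ls sm
      rw [habcd, hF]
      dsimp only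
      rw [hΦ a, hΦ b, hΦ c, hΦ d, D8_lp, D8_join, D8_lp, D8_join]
      have hs : ∀ i j : Fin 4, i ≠ j → (π u).symm i ≠ (π u).symm j :=
        fun i j h => (π u).symm.injective.ne h
      obtain ⟨k1, k2⟩ := key ((π u).symm a) ((π u).symm b) ((π u).symm c) ((π u).symm d)
        (hs _ _ hab) (hs _ _ hac) (hs _ _ had) (hs _ _ hbc) (hs _ _ hbd) (hs _ _ hcd)
      rw [ih _ hN' k1 k2]
    rw [hR, hLs]
    refine D8_perm F (π u).symm ?_ ?_
    · intro a b c d hab hac had hbc hbd hcd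
      rw [hF]
      dsimp only
      rw [join_symm e he (u, a) (u, b), lp_symm e he (u, a) (u, b)]
    · intro a b c d hab hac had hbc hbd hcd
      rw [hF]
      dsimp only
      rw [join_comm e he (hne a b hab) (hne a c hac) (hne a d had) (hne b c hbc) (hne b d hbd)
        (hne c d hcd) (hAu a) (hAu b) (hAu c) (hAu d),
        lp_comm e he (hne a b hab) (hne a c hac) (hne a d had) (hne b c hbc) (hne b d hbd)
        (hne c d hcd) (hAu a) (hAu b) (hAu c) (hAu d)]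

theorem D8 : D8_stmt := by
  intro V _ x L e π hN he hA
  exact D8_main x π L e hN he hA

end CT
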